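import Pool.Agent.H41.CL.Defs2
import Pool.Graph.R_pool_sql_team_39128cda.Lib.helper26_.Berge

set_option autoImplicit false

/-! Proof of `S_TB` of `Pool.Agent.H41.CL.Defs2`. -/

namespace Pool.Agent.H333.CL

open Finset Pool.Agent.H41.CL

/-- the matching of an involution -/
theorem mat_of_inv {V : Type} [Fintype V] [DecidableEq V] (R : SimpleGraph V) (t : ℕ)
    (ht : 2 * t ≤ Fintype.card V) (f : V → V) (f1 : ∀ v, f (f v) = v)
    (f2 : ∀ v, f v ≠ v → R.Adj v (f v)) (f3 : #{v | f v = v} ≤ Fintype.card V - 2 * t) :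
    ∃ M : Finset (Sym2 V), (∀ e ∈ M, e ∈ R.edgeSet) ∧ IsMat M ∧ M.card = t := by
  classical
  set A : Finset V := univ.filter fun v => f v ≠ v with hA
  have hAc : 2 * t ≤ #A := by
    have h := Finset.card_filter_add_card_filter_not (s := (univ : Finset V)) (fun v => f v = v)
    have h' : #A = #(univ.filter fun v => ¬ f v = v) := rfl
    rw [Finset.card_univ] at h
    omega
  set M0 : Finset (Sym2 V) := A.image fun v => s(v, f v) with hM0
  have hM0c : t ≤ #M0 := by
    have h := Finset.card_le_mul_card_image (f := fun v => s(v, f v)) A 2 (by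
      intro e he
      obtain ⟨v, hv, rfl⟩ := Finset.mem_image.1 he
      refine (Finset.card_le_card (t := {v, f v}) ?_).trans Finset.card_le_two
      intro w hw
      have hw' := (Finset.mem_filter.1 hw).2
      have : w ∈ s(w, f w) := Sym2.mem_mk_left _ _
      rw [hw'] at this
      simpa using this)
    rw [← hM0] at h
    omega
  have hM0e : ∀ e ∈ M0, e ∈ R.edgeSet := by
    intro e he
    obtain ⟨v, hv, rfl⟩ := Finset.mem_image.1 he
    exact f2 v (Finset.mem_filter.1 hv).2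
  have hM0m : IsMat M0 := by
    intro e he e' he' hne v hv hv'
    obtain ⟨x, hx, rfl⟩ := Finset.mem_image.1 he
    obtain ⟨y, hy, rfl⟩ := Finset.mem_image.1 he'
    have key : ∀ z, v ∈ s(z, f z) → s(z, f z) = s(v, f v) := by
      intro z hz
      rcases Sym2.mem_iff.1 hz with h | h
      · rw [h]
      · rw [h, f1, Sym2.eq_swap]
    exact hne ((key x hv).trans (key y hv').symm)
  obtain ⟨M, hM, hMc⟩ := Finset.exists_subset_card_eq hM0c
  exact ⟨M, fun e he => hM0e e (hM he), fun e he e' he' => hM0m e (hM he) e' (hM he'), hMc⟩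

theorem t_TB : S_TB := by
  intro V _ _ R F K t hV hK ht hac hno
  classical
  have hd : Even (Fintype.card V + (Fintype.card V - 2 * t)) := by
    rcases hV with ⟨m, hm⟩
    exact ⟨2 * m - t, by omega⟩
  rcases Pool.Agent.Lib.helper26.Berge.tb R (Fintype.card V - 2 * t) hd with
    ⟨f, f1, f2, f3⟩ | ⟨S, KK, h1, h2, h3⟩
  · exact (hno (mat_of_inv R t ht f f1 f2 f3)).elim
  set CC : Finset (Finset V) := KK.filter fun C => #C ≤ K with hCC
  set U : Finset V := CC.biUnion id with hU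
  have hCsub : CC ⊆ KK := Finset.filter_subset _ _
  have hdisj : (CC : Set (Finset V)).PairwiseDisjoint id :=
    h3.subset (by exact_mod_cast hCsub)
  have hUc : #U = ∑ C ∈ CC, #C := by
    rw [hU, Finset.card_biUnion (fun x hx y hy hxy => hdisj hx hy hxy)]
    rfl
  have hpos : ∀ C ∈ CC, 0 < #C := fun C hC => (h2 C (hCsub hC)).1.pos
  have hbig : #(KK.filter fun C => ¬ #C ≤ K) * K ≤ Fintype.card V := by
    set BB := KK.filter fun C => ¬ #C ≤ K with hBB
    have hBs : BB ⊆ KK := Finset.filter_subset _ _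
    have hBd : (BB : Set (Finset V)).PairwiseDisjoint id :=
      h3.subset (by exact_mod_cast hBs)
    calc #BB * K = ∑ C ∈ BB, K := by rw [Finset.sum_const, smul_eq_mul]
      _ ≤ ∑ C ∈ BB, #C := Finset.sum_le_sum fun C hC => by
          have := (Finset.mem_filter.1 hC).2
          omega
      _ = #(BB.biUnion id) := by
          rw [Finset.card_biUnion (fun x hx y hy hxy => hBd hx hy hxy)]; rfl
      _ ≤ Fintype.card V := Finset.card_le_univ _
  have hbig' : #(KK.filter fun C => ¬ #C ≤ K) ≤ Fintype.card V / K :=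
    (Nat.le_div_iff_mul_le (by omega)).2 hbig
  have hsplit : #CC + #(KK.filter fun C => ¬ #C ≤ K) = #KK :=
    Finset.card_filter_add_card_filter_not (s := KK) (fun C => #C ≤ K)
  have hSU : Disjoint S U := by
    rw [hU, Finset.disjoint_biUnion_right]
    intro C hC
    exact (h2 C (hCsub hC)).2.1.symm
  have hcl : ∀ C ∈ CC, ∀ x ∈ C, ∀ y, R.Adj x y → y ∈ C ∨ y ∈ S := fun C hC x hx y hxy =>
    (h2 C (hCsub hC)).2.2 x hx y hxy
  -- the edges
  set H : SimpleGraph V := R.deleteEdges (F : Set (Sym2 V)) with hH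
  have hHR : H ≤ R := SimpleGraph.deleteEdges_le _
  have hHe : ∀ e, e ∈ H.edgeSet ↔ e ∈ R.edgeSet ∧ e ∉ F := by
    intro e
    rw [hH, SimpleGraph.edgeSet_deleteEdges]
    simp
  have hEC : ∀ C ∈ CC, {e | e ∈ H.edgeSet ∧ ∀ x ∈ e, x ∈ C}.ncard + 1 ≤ #C := by
    intro C hC
    refine hac H C hHR (fun e he he' => ((hHe e).1 he').2 he) (Finset.card_pos.1 (hpos C hC)) ?_
    exact (Finset.mem_filter.1 hC).2
  have hsum : #CC + ∑ C ∈ CC, {e | e ∈ H.edgeSet ∧ ∀ x ∈ e, x ∈ C}.ncard ≤ #U := by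
    rw [hUc, Finset.card_eq_sum_ones, ← Finset.sum_add_distrib]
    exact Finset.sum_le_sum fun C hC => by have := hEC C hC; omega
  have hcov : {e | e ∈ R.edgeSet ∧ ∀ x ∈ e, x ∈ U} ⊆
      (⋃ C ∈ CC, {e | e ∈ H.edgeSet ∧ ∀ x ∈ e, x ∈ C}) ∪ {e | e ∈ R.edgeSet ∧ e ∈ F} := by
    rintro e ⟨he, heU⟩
    by_cases hF : e ∈ F
    · exact Or.inr ⟨he, hF⟩
    left
    induction e using Sym2.ind with
    | _ x y =>
      have hxU := heU x (Sym2.mem_mk_left _ _)
      have hyU := heU y (Sym2.mem_mk_right _ _)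
      rw [hU] at hxU
      obtain ⟨C, hC, hxC⟩ := Finset.mem_biUnion.1 hxU
      have hyC : y ∈ C := by
        rcases hcl C hC x hxC y he with h | h
        · exact h
        · exact (Finset.disjoint_left.1 hSU h hyU).elim
      simp only [Set.mem_iUnion]
      refine ⟨C, hC, (hHe _).2 ⟨he, hF⟩, ?_⟩
      intro z hz
      rcases Sym2.mem_iff.1 hz with h | h
      · rw [h]; exact hxC
      · rw [h]; exact hyC
  have hcard : {e | e ∈ R.edgeSet ∧ ∀ x ∈ e, x ∈ U}.ncard ≤
      (∑ C ∈ CC, {e | e ∈ H.edgeSet ∧ ∀ x ∈ e, x ∈ C}.ncard) +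
        {e | e ∈ R.edgeSet ∧ e ∈ F}.ncard := by
    refine (Set.ncard_le_ncard hcov (Set.toFinite _)).trans
      ((Set.ncard_union_le _ _).trans (Nat.add_le_add_right ?_ _))
    exact Finset.set_ncard_biUnion_le _ _
  refine ⟨S, U, #CC, hSU, ?_, ?_, ?_, ?_⟩
  · omega
  · rw [hUc, Finset.card_eq_sum_ones]
    exact Finset.sum_le_sum fun C hC => hpos C hC
  · omega
  · intro x hx y hxy
    rw [hU] at hx
    obtain ⟨C, hC, hxC⟩ := Finset.mem_biUnion.1 hx
    rcases hcl C hC x hxC y hxy with h | h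
    · exact Or.inl (by rw [hU]; exact Finset.mem_biUnion.2 ⟨C, hC, h⟩)
    · exact Or.inr h

end Pool.Agent.H333.CL
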